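import Pool.Agent.H8.Coge.Osc

set_option autoImplicit false

open Set Complex MeasureTheory Filter Topology
open scoped NNReal ENNReal FourierTransform

namespace Pool.Agent.H8.Coge

abbrev X := Set.Icc (1 : ℝ) 2

noncomputable def cc (j : ℕ) : ℝ := ∫ x in (1 : ℝ)..2, Fr j x

theorem cc_eq (j : ℕ) : II j 0 0 = (cc j : ℂ) := by
  unfold II cc
  rw [← intervalIntegral.integral_ofReal]
  refine intervalIntegral.integral_congr fun x _ => ?_
  rw [F_eq]
  simp [ef]

theorem cc_close (j : ℕ) : |cc j - 1| ≤ 0.02 := by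
  have h := c_close j
  rw [cc_eq, ← ofReal_one, ← ofReal_sub, norm_real, Real.norm_eq_abs] at h
  exact h

theorem cc_pos (j : ℕ) : 0 < cc j := by
  have := (abs_le.1 (cc_close j)).1
  linarith

noncomputable def dens (j : ℕ) (x : ℝ) : ℝ≥0 := Real.toNNReal (Fr j x / cc j)

theorem dens_cont (j : ℕ) : Continuous (dens j) := continuous_real_toNNReal.comp ((Fr_cont j).div_const _)

theorem dens_coe (j : ℕ) (x : ℝ) : ((dens j x : ℝ≥0) : ℝ) = Fr j x / cc j :=
  Real.coe_toNNReal _ (div_nonneg (Fr_nonneg j x) (cc_pos j).le)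

noncomputable def vX : Measure X := Measure.comap Subtype.val volume

noncomputable def Pm (j : ℕ) : Measure X := vX.withDensity fun x => (dens j (x : ℝ) : ℝ≥0∞)

theorem Pm_integral (j : ℕ) (g : ℝ → ℂ) : ∫ x : X, g x ∂(Pm j) = (∫ x in (1 : ℝ)..2, g x * F j x) / cc j := by
  unfold Pm
  have hm : Measurable (fun x : X => dens j (x : ℝ)) := ((dens_cont j).comp continuous_subtype_val).measurable
  rw [integral_withDensity_eq_integral_smul hm]
  have h1 : ∫ x : X, dens j (x : ℝ) • g x ∂vX = ∫ x in Icc (1 : ℝ) 2, dens j x • g x :=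
    integral_subtype_comap measurableSet_Icc (fun x : ℝ => dens j x • g x)
  rw [h1, integral_Icc_eq_integral_Ioc, ← intervalIntegral.integral_of_le (by norm_num), ← intervalIntegral.integral_div]
  refine intervalIntegral.integral_congr fun x _ => ?_
  rw [NNReal.smul_def, dens_coe, F_eq, real_smul]
  push_cast
  ring

theorem Pm_univ (j : ℕ) : Pm j univ = 1 := by
  unfold Pm
  rw [withDensity_apply _ MeasurableSet.univ, Measure.restrict_univ]
  have h1 : ∫⁻ x : X, (dens j (x : ℝ) : ℝ≥0∞) ∂vX = ∫⁻ x in Icc (1 : ℝ) 2, (dens j x : ℝ≥0∞) :=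
    lintegral_subtype_comap measurableSet_Icc (fun x : ℝ => (dens j x : ℝ≥0∞))
  rw [h1]
  have h2 : ∀ x, (dens j x : ℝ≥0∞) = ENNReal.ofReal (Fr j x / cc j) := fun x => rfl
  simp only [h2]
  have hint : IntegrableOn (fun x => Fr j x / cc j) (Icc (1 : ℝ) 2) := ((Fr_cont j).div_const _).continuousOn.integrableOn_compact isCompact_Icc
  rw [← ofReal_integral_eq_lintegral_ofReal hint (Eventually.of_forall fun x => div_nonneg (Fr_nonneg j x) (cc_pos j).le),
    integral_Icc_eq_integral_Ioc, ← intervalIntegral.integral_of_le (by norm_num), intervalIntegral.integral_div]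
  change ENNReal.ofReal (cc j / cc j) = 1
  rw [div_self (cc_pos j).ne', ENNReal.ofReal_one]

noncomputable def P (j : ℕ) : ProbabilityMeasure X := ⟨Pm j, ⟨Pm_univ j⟩⟩

theorem rl (j : ℕ) : Tendsto (fun t : ℝ => II j t 0) atTop (𝓝 0) := by
  have h := Real.tendsto_integral_exp_smul_cocompact (indicator (Ioc (1 : ℝ) 2) (F j))
  have h2 : Tendsto (fun t : ℝ => -t / (2 * Real.pi)) atTop (cocompact ℝ) := by
    refine Tendsto.mono_right ?_ atBot_le_cocompact
    exact tendsto_neg_atTop_atBot.atBot_div_const (by positivity)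
  have h3 := h.comp h2
  refine h3.congr fun t => ?_
  simp only [Function.comp]
  unfold II
  rw [intervalIntegral.integral_of_le (by norm_num : (1 : ℝ) ≤ 2), ← integral_indicator measurableSet_Ioc]
  refine integral_congr_ae (Eventually.of_forall fun x => ?_)
  simp only
  by_cases hx : x ∈ Ioc (1 : ℝ) 2
  · rw [indicator_of_mem hx, indicator_of_mem hx, Circle.smul_def, Real.fourierChar_apply, smul_eq_mul]
    congr 1
    unfold ef
    rw [zpow_zero, mul_one]
    congr 1
    push_cast
    have : (Real.pi : ℂ) ≠ 0 := by exact_mod_cast Real.pi_ne_zero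
    field_simp
  · rw [indicator_of_notMem hx, indicator_of_notMem hx, smul_zero]

theorem exists_measure : ∃ μ : ProbabilityMeasure X,
    Tendsto (fun t : ℝ => ∫ x : X, ef t 0 x ∂(μ : Measure X)) atTop (𝓝 0) ∧
    ∀ k : ℕ, 0.4 ≤ ‖∫ x : X, ef 0 (nn k) x ∂(μ : Measure X)‖ := by
  obtain ⟨μ, -, hμ⟩ := (isCompact_univ (X := ProbabilityMeasure X)).ultrafilter_le_nhds ((hyperfilter ℕ).map P) (by simp)
  have hT : Tendsto P (hyperfilter ℕ) (𝓝 μ) := hμ
  rw [ProbabilityMeasure.tendsto_iff_forall_integral_rclike_tendsto ℂ] at hT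
  have hlim : ∀ (t : ℝ) (N : ℤ), Tendsto (fun j => II j t N / cc j) (hyperfilter ℕ) (𝓝 (∫ x : X, ef t N x ∂(μ : Measure X))) := by
    intro t N
    have h := hT (BoundedContinuousFunction.mkOfCompact ⟨fun x : X => ef t N x, (ef_cont t N).comp continuous_subtype_val⟩)
    refine h.congr fun j => ?_
    exact Pm_integral j (ef t N)
  have hle : (hyperfilter ℕ : Filter ℕ) ≤ atTop := by
    rw [← Nat.cofinite_eq_atTop]; exact hyperfilter_le_cofinite
  refine ⟨μ, ?_, fun k => ?_⟩
  · rw [Metric.tendsto_atTop]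
    intro ε hε
    obtain ⟨j0, hj0⟩ := exists_pow_lt_of_lt_one (show 0 < ε by exact hε) (show (1 / 4 : ℝ) < 1 by norm_num)
    have h1 := (Metric.tendsto_atTop.1 (rl j0)) (ε / 4) (by linarith)
    obtain ⟨T, hT'⟩ := h1
    refine ⟨T, fun t ht => ?_⟩
    have h2 := hT' t ht
    rw [dist_zero_right] at h2 ⊢
    have h3 : ∀ᶠ j in (hyperfilter ℕ : Filter ℕ), ‖II j t 0 / cc j‖ ≤ ε / 2 := by
      refine hle ?_
      filter_upwards [eventually_ge_atTop j0] with J hJ
      have h4 := steps j0 J hJ t 0 (by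
        have h : (0 : ℝ) < nn j0 := by exact_mod_cast nn_pos j0
        simp; linarith)
      have h5 : (0 : ℝ) < (1 / 4) ^ J := by positivity
      have h6 : ‖II J t 0‖ ≤ 0.28 * ε := by
        have := norm_sub_norm_le (II J t 0) (II j0 t 0)
        linarith
      rw [norm_div, norm_real, Real.norm_eq_abs, abs_of_pos (cc_pos J), div_le_iff₀ (cc_pos J)]
      have := (abs_le.1 (cc_close J)).1
      nlinarith
    have h7 := le_of_tendsto (hlim t 0).norm h3
    linarith
  · have h3 : ∀ᶠ j in (hyperfilter ℕ : Filter ℕ), 0.4 ≤ ‖II j 0 (nn k) / cc j‖ := by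
      refine hle ?_
      filter_upwards [eventually_gt_atTop k] with J hJ
      have h4 := V_low k J hJ
      rw [norm_div, norm_real, Real.norm_eq_abs, abs_of_pos (cc_pos J), le_div_iff₀ (cc_pos J)]
      have := (abs_le.1 (cc_close J)).2
      nlinarith
    exact ge_of_tendsto (hlim 0 (nn k)).norm h3

end Pool.Agent.H8.Coge
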