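import Pool.Agent.H8.Coge.Meas

set_option autoImplicit false

open Set Complex MeasureTheory Filter Topology
open scoped NNReal ENNReal

namespace Pool.Agent.H8.Coge

section Mul
variable (μ : Measure X)

theorem mul_memLp (u : C(X, ℂ)) (f : Lp ℂ 2 μ) : MemLp (fun x => u x * f x) 2 μ := by
  refine (Lp.memLp f).of_le_mul (c := ‖u‖) ?_ ?_
  · exact (u.continuous.aestronglyMeasurable).mul (Lp.aestronglyMeasurable f)
  · refine Eventually.of_forall fun x => ?_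
    rw [norm_mul]
    exact mul_le_mul_of_nonneg_right (u.norm_coe_le_norm x) (norm_nonneg _)

noncomputable def mm (u : C(X, ℂ)) (f : Lp ℂ 2 μ) : Lp ℂ 2 μ := (mul_memLp μ u f).toLp

theorem mm_coe (u : C(X, ℂ)) (f : Lp ℂ 2 μ) : (mm μ u f : X → ℂ) =ᵐ[μ] fun x => u x * f x :=
  MemLp.coeFn_toLp _

theorem mm_norm (u : C(X, ℂ)) (f : Lp ℂ 2 μ) : ‖mm μ u f‖ ≤ ‖u‖ * ‖f‖ := by
  refine Lp.norm_le_mul_norm_of_ae_le_mul ?_
  filter_upwards [mm_coe μ u f] with x hx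
  rw [hx, norm_mul]
  exact mul_le_mul_of_nonneg_right (u.norm_coe_le_norm x) (norm_nonneg _)

theorem mm_add_right (u : C(X, ℂ)) (f g : Lp ℂ 2 μ) : mm μ u (f + g) = mm μ u f + mm μ u g := by
  refine Lp.ext ?_
  filter_upwards [mm_coe μ u (f + g), mm_coe μ u f, mm_coe μ u g, Lp.coeFn_add f g, Lp.coeFn_add (mm μ u f) (mm μ u g)] with x h1 h2 h3 h4 h5
  rw [h1, h5, Pi.add_apply, h2, h3, h4, Pi.add_apply]; ring

theorem mm_smul_right (c : ℂ) (u : C(X, ℂ)) (f : Lp ℂ 2 μ) : mm μ u (c • f) = c • mm μ u f := by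
  refine Lp.ext ?_
  filter_upwards [mm_coe μ u (c • f), mm_coe μ u f, Lp.coeFn_smul c f, Lp.coeFn_smul c (mm μ u f)] with x h1 h2 h3 h4
  rw [h1, h4, Pi.smul_apply, h2, h3, Pi.smul_apply, smul_eq_mul, smul_eq_mul]; ring

theorem mm_add_left (u v : C(X, ℂ)) (f : Lp ℂ 2 μ) : mm μ (u + v) f = mm μ u f + mm μ v f := by
  refine Lp.ext ?_
  filter_upwards [mm_coe μ (u + v) f, mm_coe μ u f, mm_coe μ v f, Lp.coeFn_add (mm μ u f) (mm μ v f)] with x h1 h2 h3 h5
  rw [h1, h5, Pi.add_apply, h2, h3, ContinuousMap.add_apply]; ring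

theorem mm_smul_left (c : ℂ) (u : C(X, ℂ)) (f : Lp ℂ 2 μ) : mm μ (c • u) f = c • mm μ u f := by
  refine Lp.ext ?_
  filter_upwards [mm_coe μ (c • u) f, mm_coe μ u f, Lp.coeFn_smul c (mm μ u f)] with x h1 h2 h4
  rw [h1, h4, Pi.smul_apply, h2, ContinuousMap.smul_apply, smul_eq_mul, smul_eq_mul]; ring

theorem mm_mul (u v : C(X, ℂ)) (f : Lp ℂ 2 μ) : mm μ (u * v) f = mm μ u (mm μ v f) := by
  refine Lp.ext ?_
  filter_upwards [mm_coe μ (u * v) f, mm_coe μ v f, mm_coe μ u (mm μ v f)] with x h1 h2 h4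
  rw [h1, h4, h2, ContinuousMap.mul_apply]; ring

theorem mm_one (f : Lp ℂ 2 μ) : mm μ 1 f = f := by
  refine Lp.ext ?_
  filter_upwards [mm_coe μ 1 f] with x h1
  rw [h1, ContinuousMap.one_apply, one_mul]

/-- multiplication as an operator on `L²` -/
noncomputable def MM (u : C(X, ℂ)) : Lp ℂ 2 μ →L[ℂ] Lp ℂ 2 μ :=
  LinearMap.mkContinuous { toFun := mm μ u, map_add' := mm_add_right μ u, map_smul' := fun c f => mm_smul_right μ c u f } ‖u‖ (mm_norm μ u)

/-- the orbit map -/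
noncomputable def Mz (f : Lp ℂ 2 μ) : C(X, ℂ) →L[ℂ] Lp ℂ 2 μ :=
  LinearMap.mkContinuous { toFun := fun u => mm μ u f, map_add' := fun u v => mm_add_left μ u v f, map_smul' := fun c u => mm_smul_left μ c u f } ‖f‖
    (fun u => by rw [mul_comm]; exact mm_norm μ u f)

theorem MM_apply (u : C(X, ℂ)) (f : Lp ℂ 2 μ) : MM μ u f = mm μ u f := rfl
theorem Mz_apply (u : C(X, ℂ)) (f : Lp ℂ 2 μ) : Mz μ f u = mm μ u f := rfl

theorem MM_norm (u : C(X, ℂ)) : ‖MM μ u‖ ≤ ‖u‖ := LinearMap.mkContinuous_norm_le _ (norm_nonneg _) _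

end Mul

/-- `x ↦ i x - 1` -/
noncomputable def bb : C(X, ℂ) := ⟨fun x => (x : ℝ) * I - 1, by fun_prop⟩

theorem bb_ne (x : X) : bb x ≠ 0 := by
  intro h
  have := congrArg Complex.re h
  simp [bb] at this

noncomputable def rr : C(X, ℂ) := ⟨fun x => (bb x)⁻¹, bb.continuous.inv₀ bb_ne⟩

noncomputable def EE (t : ℝ) : C(X, ℂ) := ⟨fun x => ef t 0 x, (ef_cont t 0).comp continuous_subtype_val⟩

noncomputable def KK (t : ℝ) : C(X, ℂ) := NormedSpace.exp (t • bb)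

theorem KK_coe (t : ℝ) : KK t = ((Real.exp (-t) : ℝ) : ℂ) • EE t := by
  ext x
  have h1 : KK t x = Complex.exp ((t : ℂ) * bb x) := by
    unfold KK
    have h := NormedSpace.map_exp (Pi.evalRingHom (fun _ : X => ℂ) x |>.comp (ContinuousMap.coeFnRingHom : C(X, ℂ) →+* (X → ℂ))) (by
      change Continuous fun f : C(X, ℂ) => f x
      fun_prop) (t • bb)
    rw [← Complex.exp_eq_exp_ℂ] at h
    have h2 : ((Pi.evalRingHom (fun _ : X => ℂ) x).comp (ContinuousMap.coeFnRingHom : C(X, ℂ) →+* (X → ℂ))) (t • bb) = (t : ℂ) * bb x := by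
      change (t • bb) x = _
      rw [ContinuousMap.smul_apply, real_smul]
    rw [h2] at h
    exact h
  rw [h1, ContinuousMap.smul_apply, smul_eq_mul]
  change _ = _ * ef t 0 x
  unfold ef
  rw [zpow_zero, mul_one, ofReal_exp, ← Complex.exp_add]
  congr 1
  change (t : ℂ) * ((x : ℝ) * I - 1) = _
  push_cast
  ring

theorem KK_deriv (t : ℝ) : HasDerivAt (fun s => KK s * rr) (KK t) t := by
  have h := (hasDerivAt_exp_smul_const bb t).mul_const rr
  refine h.congr_deriv ?_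
  ext x
  change KK t x * bb x * (bb x)⁻¹ = KK t x
  rw [mul_assoc, mul_inv_cancel₀ (bb_ne x), mul_one]

section Sem
variable (μ : Measure X)

theorem EE_norm (t : ℝ) : ‖EE t‖ ≤ 1 := by
  rw [ContinuousMap.norm_le _ zero_le_one]
  intro x
  exact (ef_norm t 0 x).le

theorem EE_zero : EE 0 = 1 := by
  ext x
  change ef 0 0 x = 1
  simp [ef]

theorem EE_add (s t : ℝ) : EE (s + t) = EE s * EE t := by
  ext x
  change ef (s + t) 0 x = ef s 0 x * ef t 0 x
  simp only [ef, zpow_zero, mul_one]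
  rw [← Complex.exp_add]
  congr 1
  push_cast
  ring

theorem EE_eq (t : ℝ) : EE t = ((Real.exp t : ℝ) : ℂ) • KK t := by
  rw [KK_coe, smul_smul, ← ofReal_mul, ← Real.exp_add]
  simp

theorem KK_cont : Continuous KK := by
  unfold KK
  have : Continuous fun t : ℝ => t • bb := by fun_prop
  exact (NormedSpace.exp_continuous).comp this

theorem EE_cont : Continuous EE := by
  have : EE = fun t => ((Real.exp t : ℝ) : ℂ) • KK t := funext EE_eq
  rw [this]
  exact (continuous_ofReal.comp Real.continuous_exp).smul KK_cont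

noncomputable def TT (t : ℝ) : Lp ℂ 2 μ →L[ℂ] Lp ℂ 2 μ := MM μ (EE t)

theorem TT_zero : TT μ 0 = 1 := by
  ext1 f
  change mm μ (EE 0) f = f
  rw [EE_zero, mm_one]

theorem TT_add (s t : ℝ) : TT μ (s + t) = TT μ s * TT μ t := by
  ext1 f
  change mm μ (EE (s + t)) f = mm μ (EE s) (mm μ (EE t) f)
  rw [EE_add, mm_mul]

theorem TT_cont (f : Lp ℂ 2 μ) : Continuous fun t => TT μ t f :=
  (Mz μ f).continuous.comp EE_cont

theorem TT_norm (t : ℝ) : ‖TT μ t‖ ≤ 1 := (MM_norm μ _).trans (EE_norm t)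

theorem KK_norm (t : ℝ) : ‖KK t‖ ≤ Real.exp (-t) := by
  rw [KK_coe, norm_smul, norm_real, Real.norm_eq_abs, abs_of_pos (Real.exp_pos _)]
  calc Real.exp (-t) * ‖EE t‖ ≤ Real.exp (-t) * 1 := mul_le_mul_of_nonneg_left (EE_norm t) (Real.exp_pos _).le
    _ = _ := mul_one _

theorem integral_eq (f : Lp ℂ 2 μ) : ∫ t in Ioi (0 : ℝ), ((Real.exp (-t) : ℝ) : ℂ) • TT μ t f = mm μ (-rr) f := by
  have h1 : ∀ t : ℝ, ((Real.exp (-t) : ℝ) : ℂ) • TT μ t f = Mz μ f (KK t) := by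
    intro t
    rw [KK_coe, map_smul]
    rfl
  simp only [h1]
  have hd : ∀ t ∈ Ici (0 : ℝ), HasDerivAt (fun s => Mz μ f (KK s * rr)) (Mz μ f (KK t)) t := fun t _ =>
    ((Mz μ f).restrictScalars ℝ).hasFDerivAt.comp_hasDerivAt t (KK_deriv t)
  have hi : IntegrableOn (fun t => Mz μ f (KK t)) (Ioi (0 : ℝ)) := by
    have hb : IntegrableOn (fun t : ℝ => ‖f‖ * Real.exp (-1 * t)) (Ioi 0) := (exp_neg_integrableOn_Ioi 0 one_pos).const_mul _
    refine Integrable.mono' hb ((Mz μ f).continuous.comp KK_cont).aestronglyMeasurable (Eventually.of_forall fun t => ?_)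
    refine (mm_norm μ (KK t) f).trans ?_
    rw [mul_comm, neg_one_mul]
    exact mul_le_mul_of_nonneg_left (KK_norm t) (norm_nonneg _)
  have hl : Tendsto (fun s => Mz μ f (KK s * rr)) atTop (𝓝 0) := by
    have hK : Tendsto KK atTop (𝓝 0) := by
      rw [tendsto_zero_iff_norm_tendsto_zero]
      refine squeeze_zero (fun _ => norm_nonneg _) KK_norm ?_
      exact Real.tendsto_exp_neg_atTop_nhds_zero
    have h2 : Tendsto (fun s => KK s * rr) atTop (𝓝 (0 * rr)) := hK.mul_const rr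
    rw [zero_mul] at h2
    have h3 := ((Mz μ f).continuous.tendsto 0).comp h2
    rw [map_zero] at h3
    exact h3
  have h := integral_Ioi_of_hasDerivAt_of_tendsto' hd hi hl
  rw [h]
  have hK0 : KK 0 = 1 := by
    rw [KK_coe, EE_zero]; simp
  rw [hK0, one_mul, zero_sub, ← map_neg]
  rfl

noncomputable def WW : C(X, ℂ) := ⟨fun x => -w x, (w_cont.comp continuous_subtype_val).neg⟩

theorem WW_eq : (1 : C(X, ℂ)) + (-2 : ℂ) • (-rr) = WW := by
  ext x
  change 1 + (-2 : ℂ) * (-(((x : ℝ) * I - 1)⁻¹)) = -((1 + (x : ℝ) * I) / (1 - (x : ℝ) * I))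
  have h := den_ne x
  have h2 : ((x : ℝ) : ℂ) * I - 1 ≠ 0 := by
    rw [← neg_ne_zero, neg_sub]; exact h
  rw [show (1 : ℂ) - (x : ℝ) * I = -((x : ℝ) * I - 1) by ring]
  field_simp
  ring

theorem cog_eq (f : Lp ℂ 2 μ) : f - (2 : ℂ) • ∫ t in Ioi (0 : ℝ), ((Real.exp (-t) : ℝ) : ℂ) • TT μ t f = mm μ WW f := by
  rw [integral_eq, ← WW_eq, mm_add_left, mm_one, mm_smul_left, neg_smul, sub_eq_add_neg]

theorem iter_eq (n : ℕ) (f : Lp ℂ 2 μ) : (fun z : Lp ℂ 2 μ => z - (2 : ℂ) • ∫ t in Ioi (0 : ℝ), ((Real.exp (-t) : ℝ) : ℂ) • TT μ t z)^[n] f = mm μ (WW ^ n) f := by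
  have : (fun z : Lp ℂ 2 μ => z - (2 : ℂ) • ∫ t in Ioi (0 : ℝ), ((Real.exp (-t) : ℝ) : ℂ) • TT μ t z) = mm μ WW := funext (cog_eq μ)
  rw [this]
  induction n with
  | zero => rw [Function.iterate_zero, id, pow_zero, mm_one]
  | succ n ih => rw [Function.iterate_succ_apply', ih, pow_succ', mm_mul]

end Sem

end Pool.Agent.H8.Coge
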