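import Mathlib
import Pool.Agent.H8.Vdc

set_option autoImplicit false

open Set Complex MeasureTheory

namespace Pool.Agent.H8.Coge

/-- `(1+ix)/(1-ix)` -/
noncomputable def w (x : ℝ) : ℂ := (1 + x * I) / (1 - x * I)

theorem num_ne (x : ℝ) : (1 : ℂ) + x * I ≠ 0 := by
  intro h
  have := congrArg Complex.re h
  simp at this

theorem den_ne (x : ℝ) : (1 : ℂ) - x * I ≠ 0 := by
  intro h
  have := congrArg Complex.re h
  simp at this

theorem w_ne (x : ℝ) : w x ≠ 0 := div_ne_zero (num_ne x) (den_ne x)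

theorem w_conj (x : ℝ) : (starRingEnd ℂ) (w x) = (w x)⁻¹ := by
  unfold w
  rw [map_div₀, map_add, map_sub, map_mul, conj_I, conj_ofReal, map_one, inv_div]
  congr 1 <;> ring

theorem w_norm (x : ℝ) : ‖w x‖ = 1 := by
  have h : w x * (starRingEnd ℂ) (w x) = 1 := by rw [w_conj, mul_inv_cancel₀ (w_ne x)]
  rw [mul_conj, ← ofReal_one, ofReal_inj, normSq_eq_norm_sq] at h
  nlinarith [norm_nonneg (w x)]

theorem w_deriv (x : ℝ) : HasDerivAt w ((2 / (1 + x ^ 2) : ℝ) * I * w x) x := by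
  have h0 : HasDerivAt (fun y : ℝ => (y : ℂ) * I) I x := by
    simpa using (hasDerivAt_id x).ofReal_comp.mul_const I
  have h1 : HasDerivAt (fun y : ℝ => (1 : ℂ) + y * I) I x := h0.const_add 1
  have h2 : HasDerivAt (fun y : ℝ => (1 : ℂ) - y * I) (-I) x := h0.const_sub 1
  have h := h1.div h2 (den_ne x)
  refine h.congr_deriv ?_
  unfold w
  have e1 : ((2 / (1 + x ^ 2) : ℝ) : ℂ) = 2 / ((1 + x * I) * (1 - x * I)) := by
    push_cast
    congr 1
    ring_nf
    rw [I_sq]; ring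
  rw [e1, show I * (1 - (x : ℂ) * I) - (1 + x * I) * -I = 2 * I by ring]
  have := num_ne x
  have := den_ne x
  have a1 : (1 : ℂ) + I * x ≠ 0 := by rw [mul_comm]; exact num_ne x
  have a2 : (1 : ℂ) - I * x ≠ 0 := by rw [mul_comm]; exact den_ne x
  field_simp

theorem w_cont : Continuous w := continuous_iff_continuousAt.2 fun x => (w_deriv x).continuousAt

theorem wz_deriv (N : ℤ) (x : ℝ) : HasDerivAt (fun y => w y ^ N) (((2 * N / (1 + x ^ 2) : ℝ) : ℂ) * I * w x ^ N) x := by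
  have h1 : HasDerivAt (fun z : ℂ => z ^ N) ((N : ℂ) * (w x) ^ (N - 1)) (w x) := hasDerivAt_zpow N (w x) (Or.inl (w_ne x))
  have h := h1.comp x (w_deriv x)
  refine h.congr_deriv ?_
  have e : w x ^ N = w x ^ (N - 1) * w x := by
    rw [← zpow_add_one₀ (w_ne x), sub_add_cancel]
  rw [e]
  push_cast
  ring

/-- the oscillating function -/
noncomputable def ef (t : ℝ) (N : ℤ) (x : ℝ) : ℂ := Complex.exp (t * x * I) * w x ^ N

theorem ef_norm (t : ℝ) (N : ℤ) (x : ℝ) : ‖ef t N x‖ = 1 := by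
  unfold ef
  rw [norm_mul, norm_zpow, w_norm, one_zpow, mul_one, ← ofReal_mul, norm_exp_ofReal_mul_I]

theorem ef_deriv (t : ℝ) (N : ℤ) (x : ℝ) :
    HasDerivAt (ef t N) ((((0 : ℝ) : ℂ) + ((t + 2 * N / (1 + x ^ 2) : ℝ) : ℂ) * I) * ef t N x) x := by
  have h0 : HasDerivAt (fun y : ℝ => (t : ℂ) * y * I) (t * I) x := by
    have := ((hasDerivAt_id x).ofReal_comp.const_mul (t : ℂ)).mul_const I
    simpa using this
  have h := h0.cexp.mul (wz_deriv N x)
  refine h.congr_deriv ?_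
  unfold ef
  push_cast
  ring

theorem ef_cont (t : ℝ) (N : ℤ) : Continuous (ef t N) := continuous_iff_continuousAt.2 fun x => (ef_deriv t N x).continuousAt

theorem ef_conj (t : ℝ) (N : ℤ) (x : ℝ) : (starRingEnd ℂ) (ef t N x) = ef (-t) (-N) x := by
  unfold ef
  rw [map_mul, ← Complex.exp_conj, map_mul, map_mul, conj_I, conj_ofReal, conj_ofReal, map_zpow₀, w_conj, inv_zpow, ← zpow_neg]
  congr 2
  push_cast; ring

theorem base_neg (t : ℝ) (N : ℤ) (hN : N < 0) : ‖∫ x in (1 : ℝ)..2, ef t N x‖ ≤ 15 / √(-(N : ℝ)) := by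
  have hN' : (N : ℝ) < 0 := by exact_mod_cast hN
  have hl : 0 < 0.32 * (-(N : ℝ)) := by nlinarith
  have hv : ∀ x : ℝ, HasDerivAt (fun x : ℝ => t + 2 * N / (1 + x ^ 2)) (-(4 * N * x / (1 + x ^ 2) ^ 2)) x := by
    intro x
    have h1 : HasDerivAt (fun x : ℝ => 1 + x ^ 2) (2 * x) x := by
      simpa using (hasDerivAt_pow 2 x).const_add 1
    have hne : (1 : ℝ) + x ^ 2 ≠ 0 := by positivity
    have h2 := ((hasDerivAt_const x (2 * (N : ℝ))).div h1 hne).const_add t
    refine h2.congr_deriv ?_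
    field_simp
    ring
  have h := Pool.Agent.H8.vdc 1 2 (0.32 * (-(N : ℝ))) (by norm_num) hl (fun x => t + 2 * N / (1 + x ^ 2))
    (fun x => -(4 * N * x / (1 + x ^ 2) ^ 2)) (fun _ => 0) (fun _ => 1) (ef t N) hv ?_ (fun _ _ => le_rfl)
    (fun x => ef_deriv t N x) (fun x => by simpa using hasDerivAt_const x (1 : ℝ)) (fun x => ef_norm t N x) (fun _ _ => le_rfl)
  · refine h.trans ?_
    rw [Real.sqrt_mul (by norm_num)]
    have h3 : (0.565 : ℝ) ≤ √0.32 := by
      apply Real.le_sqrt_of_sq_le; norm_num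
    have h4 : 0 < √(-(N : ℝ)) := Real.sqrt_pos.2 (by linarith)
    rw [div_le_div_iff₀ (by positivity) h4]
    nlinarith
  · intro x hx
    have h1 : (0 : ℝ) < (1 + x ^ 2) ^ 2 := by positivity
    have hx1 := hx.1
    have hx2 := hx.2
    have h2 : 0.08 ≤ x / (1 + x ^ 2) ^ 2 := by
      rw [le_div_iff₀ h1]
      nlinarith [mul_nonneg (sub_nonneg.2 hx1) (sub_nonneg.2 hx2), mul_nonneg (mul_nonneg (sub_nonneg.2 hx1) (sub_nonneg.2 hx2)) (by linarith : (0:ℝ) ≤ x),
        mul_nonneg (mul_nonneg (sub_nonneg.2 hx1) (sub_nonneg.2 hx2)) (mul_nonneg (by linarith : (0:ℝ) ≤ x) (by linarith : (0:ℝ) ≤ x))]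
    have h3 : -(4 * N * x / (1 + x ^ 2) ^ 2) = 4 * (-(N : ℝ)) * (x / (1 + x ^ 2) ^ 2) := by ring
    rw [h3]
    nlinarith

theorem base (t : ℝ) (N : ℤ) (hN : N ≠ 0) : ‖∫ x in (1 : ℝ)..2, ef t N x‖ ≤ 15 / √|(N : ℝ)| := by
  rcases lt_or_gt_of_ne hN with h | h
  · have h' : (N : ℝ) < 0 := by exact_mod_cast h
    rw [abs_of_neg h']
    exact base_neg t N h
  · have h' : 0 < (N : ℝ) := by exact_mod_cast h
    have h1 := base_neg (-t) (-N) (by omega)
    have h2 : ∫ x in (1 : ℝ)..2, ef (-t) (-N) x = (starRingEnd ℂ) (∫ x in (1 : ℝ)..2, ef t N x) := by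
      rw [intervalIntegral.integral_of_le (by norm_num : (1 : ℝ) ≤ 2), intervalIntegral.integral_of_le (by norm_num : (1 : ℝ) ≤ 2),
        ← integral_conj]
      exact integral_congr_ae (Filter.Eventually.of_forall fun x => (ef_conj t N x).symm)
    rw [h2, RCLike.norm_conj] at h1
    rw [abs_of_pos h']
    push_cast at h1
    rwa [neg_neg] at h1

/-- frequencies -/
def nn (j : ℕ) : ℤ := 2000000 * 64 ^ j

def ss (j : ℕ) : ℤ := ∑ i ∈ Finset.range j, nn i

theorem nn_pos (j : ℕ) : 0 < nn j := by unfold nn; positivity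

theorem ss_eq (j : ℕ) : 63 * ss j + 2000000 = nn j := by
  induction j with
  | zero => simp [ss, nn]
  | succ j ih =>
    have h1 : ss (j + 1) = ss j + nn j := Finset.sum_range_succ _ _
    have h2 : nn (j + 1) = 64 * nn j := by unfold nn; ring
    rw [h1, h2]
    linarith

theorem ss_nonneg (j : ℕ) : 0 ≤ ss j := Finset.sum_nonneg fun i _ => (nn_pos i).le

theorem nn_le_ss (k j : ℕ) (h : k < j) : nn k ≤ ss j :=
  Finset.single_le_sum (f := nn) (fun i _ => (nn_pos i).le) (Finset.mem_range.2 h)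

/-- the densities -/
noncomputable def F (j : ℕ) (x : ℝ) : ℂ := ∏ i ∈ Finset.range j, (1 + (w x ^ (nn i) + w x ^ (-(nn i))) / 2)

theorem F_succ (j : ℕ) (x : ℝ) : F (j + 1) x = F j x * (1 + (w x ^ (nn j) + w x ^ (-(nn j))) / 2) := Finset.prod_range_succ _ _

theorem F_cont (j : ℕ) : Continuous (F j) := by
  unfold F
  refine continuous_finsetProd _ fun i _ => ?_
  have h1 : ∀ N : ℤ, Continuous fun x => w x ^ N := fun N => continuous_iff_continuousAt.2 fun x => (wz_deriv N x).continuousAt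
  exact continuous_const.add (((h1 _).add (h1 _)).div_const 2)

/-- the real factor -/
noncomputable def Fr (j : ℕ) (x : ℝ) : ℝ := ∏ i ∈ Finset.range j, (1 + (w x ^ (nn i)).re)

theorem F_eq (j : ℕ) (x : ℝ) : F j x = (Fr j x : ℂ) := by
  unfold F Fr
  rw [ofReal_prod]
  refine Finset.prod_congr rfl fun i _ => ?_
  have h1 : w x ^ (-(nn i)) = (starRingEnd ℂ) (w x ^ (nn i)) := by
    rw [map_zpow₀, w_conj, inv_zpow, zpow_neg]
  rw [h1, add_conj]
  push_cast
  ring

theorem Fr_nonneg (j : ℕ) (x : ℝ) : 0 ≤ Fr j x := by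
  unfold Fr
  refine Finset.prod_nonneg fun i _ => ?_
  have h1 := abs_re_le_norm (w x ^ (nn i))
  rw [norm_zpow, w_norm, one_zpow, abs_le] at h1
  linarith [h1.1]

theorem Fr_cont (j : ℕ) : Continuous (Fr j) := by
  have h : Fr j = fun x => (F j x).re := by funext x; rw [F_eq, ofReal_re]
  rw [h]
  exact Complex.continuous_re.comp (F_cont j)

/-- the integrals -/
noncomputable def II (j : ℕ) (t : ℝ) (N : ℤ) : ℂ := ∫ x in (1 : ℝ)..2, ef t N x * F j x

theorem ef_add (t : ℝ) (N M : ℤ) (x : ℝ) : ef t N x * w x ^ M = ef t (N + M) x := by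
  unfold ef
  rw [zpow_add₀ (w_ne x)]; ring

theorem II_succ (j : ℕ) (t : ℝ) (N : ℤ) : II (j + 1) t N = II j t N + (II j t (N + nn j) + II j t (N - nn j)) / 2 := by
  unfold II
  have hint : ∀ M, IntervalIntegrable (fun x => ef t M x * F j x) volume 1 2 := fun M =>
    ((ef_cont t M).mul (F_cont j)).intervalIntegrable _ _
  rw [← intervalIntegral.integral_add (hint _) (hint _), ← intervalIntegral.integral_div, ← intervalIntegral.integral_add (hint _)]
  · refine intervalIntegral.integral_congr fun x _ => ?_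
    rw [F_succ, ← ef_add, sub_eq_add_neg, ← ef_add]
    ring
  · exact (((hint _).add (hint _)).div_const 2)

theorem II_bound (j : ℕ) : ∀ (t : ℝ) (N : ℤ) (D : ℝ), 0 < D → D + ss j ≤ |(N : ℝ)| → ‖II j t N‖ ≤ 2 ^ j * (15 / √D) := by
  induction j with
  | zero =>
    intro t N D hD h
    have h0 : (ss 0 : ℝ) = 0 := by simp [ss]
    rw [h0, add_zero] at h
    have hN : N ≠ 0 := by
      rintro rfl
      simp at h
      linarith
    have h1 := base t N hN
    have h2 : II 0 t N = ∫ x in (1 : ℝ)..2, ef t N x := by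
      unfold II F
      simp
    rw [h2, pow_zero, one_mul]
    refine h1.trans ?_
    gcongr
  | succ j ih =>
    intro t N D hD h
    have hs : ((ss (j + 1) : ℤ) : ℝ) = ss j + nn j := by
      have : ss (j + 1) = ss j + nn j := Finset.sum_range_succ _ _
      rw [this]; push_cast; ring
    rw [hs] at h
    have hn : (0 : ℝ) < nn j := by exact_mod_cast nn_pos j
    rw [II_succ]
    have h1 := ih t N D hD (by linarith)
    have h2 := ih t (N + nn j) D hD (by
      push_cast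
      have := abs_sub_abs_le_abs_sub (N : ℝ) (-(nn j : ℝ))
      rw [abs_neg, abs_of_pos hn, sub_neg_eq_add] at this
      linarith)
    have h3 := ih t (N - nn j) D hD (by
      push_cast
      have := abs_sub_abs_le_abs_sub (N : ℝ) (nn j : ℝ)
      rw [abs_of_pos hn] at this
      linarith)
    calc ‖II j t N + (II j t (N + nn j) + II j t (N - nn j)) / 2‖ ≤ ‖II j t N‖ + ‖(II j t (N + nn j) + II j t (N - nn j)) / 2‖ := norm_add_le _ _
      _ ≤ ‖II j t N‖ + (‖II j t (N + nn j)‖ + ‖II j t (N - nn j)‖) / 2 := by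
          rw [norm_div]
          have : ‖(2 : ℂ)‖ = 2 := by norm_num
          rw [this]
          gcongr
          exact norm_add_le _ _
      _ ≤ 2 ^ (j + 1) * (15 / √D) := by
          rw [pow_succ]; linarith

/-- error at step `j` -/
theorem bj (j : ℕ) : (2 : ℝ) ^ j * (15 / √((nn j : ℝ) / 2)) = 0.015 * (1 / 4) ^ j := by
  have h1 : (nn j : ℝ) / 2 = (1000 * 8 ^ j) ^ 2 := by
    unfold nn
    push_cast
    rw [mul_pow, ← pow_mul, mul_comm j 2, pow_mul]
    norm_num
    ring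
  rw [h1, Real.sqrt_sq (by positivity)]
  rw [show (8 : ℝ) = 2 * 4 by norm_num, mul_pow, one_div, inv_pow]
  field_simp
  norm_num

theorem ss_small (j : ℕ) : (ss j : ℝ) ≤ nn j / 8 := by
  have h := ss_eq j
  have h2 := ss_nonneg j
  have h3 : (63 : ℝ) * ss j + 2000000 = nn j := by exact_mod_cast h
  have h4 : (0 : ℝ) ≤ ss j := by exact_mod_cast h2
  linarith

theorem step (j : ℕ) (t : ℝ) (M : ℤ) (hM : |(M : ℝ)| ≤ nn j / 8) : ‖II (j + 1) t M - II j t M‖ ≤ 0.015 * (1 / 4) ^ j := by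
  rw [II_succ, add_sub_cancel_left]
  have hn : (0 : ℝ) < nn j := by exact_mod_cast nn_pos j
  have hs := ss_small j
  have h2 := II_bound j t (M + nn j) ((nn j : ℝ) / 2) (by positivity) (by
    push_cast
    have := abs_sub_abs_le_abs_sub (nn j : ℝ) (-(M : ℝ))
    rw [abs_neg, abs_of_pos hn, sub_neg_eq_add, add_comm (nn j : ℝ)] at this
    linarith)
  have h3 := II_bound j t (M - nn j) ((nn j : ℝ) / 2) (by positivity) (by
    push_cast
    have := abs_sub_abs_le_abs_sub (nn j : ℝ) (M : ℝ)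
    rw [abs_of_pos hn, abs_sub_comm] at this
    linarith)
  rw [bj] at h2 h3
  rw [norm_div]
  have : ‖(2 : ℂ)‖ = 2 := by norm_num
  rw [this]
  have := norm_add_le (II j t (M + nn j)) (II j t (M - nn j))
  linarith

theorem steps (j J : ℕ) (h : j ≤ J) (t : ℝ) (M : ℤ) (hM : |(M : ℝ)| ≤ nn j / 8) :
    ‖II J t M - II j t M‖ ≤ 0.02 * (1 / 4) ^ j - 0.02 * (1 / 4) ^ J := by
  induction J, h using Nat.le_induction with
  | base => simp
  | succ J hJ ih =>
    have h1 := step J t M (hM.trans (by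
      have : (nn j : ℝ) ≤ nn J := by
        unfold nn
        push_cast
        gcongr
        norm_num
      linarith))
    have h2 : II (J + 1) t M - II j t M = (II (J + 1) t M - II J t M) + (II J t M - II j t M) := by ring
    rw [h2]
    have h3 := norm_add_le (II (J + 1) t M - II J t M) (II J t M - II j t M)
    have h4 : (1 / 4 : ℝ) ^ (J + 1) = (1 / 4) ^ J * (1 / 4) := pow_succ _ _
    rw [h4]
    linarith

/-- normalisation -/
theorem c_close (J : ℕ) : ‖II J 0 0 - 1‖ ≤ 0.02 := by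
  have h1 := steps 0 J (Nat.zero_le _) 0 0 (by
    have := nn_pos 0
    have h : (0 : ℝ) < nn 0 := by exact_mod_cast this
    simp; linarith)
  have h2 : II 0 0 0 = 1 := by
    unfold II F ef
    simp
    norm_num
  rw [h2, pow_zero] at h1
  have : (0 : ℝ) < (1 / 4) ^ J := by positivity
  linarith

theorem V_low (k J : ℕ) (h : k < J) : 0.44 ≤ ‖II J 0 (nn k)‖ := by
  have hk : (0 : ℝ) < nn k := by exact_mod_cast nn_pos k
  have hs := ss_small k
  have hq : (0 : ℝ) < (1 / 4) ^ k := by positivity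
  have hq1 : (1 / 4 : ℝ) ^ k ≤ 1 := pow_le_one₀ (by norm_num) (by norm_num)
  have h1 := steps (k + 1) J h 0 (nn k) (by
    rw [abs_of_pos hk]
    have : nn (k + 1) = 64 * nn k := by unfold nn; ring
    rw [this]; push_cast; linarith)
  have h2 := II_succ k 0 (nn k)
  rw [sub_self] at h2
  have h3 := II_bound k 0 (nn k) ((nn k : ℝ) / 2) (by positivity) (by rw [abs_of_pos hk]; linarith)
  have h4 := II_bound k 0 (nn k + nn k) ((nn k : ℝ) / 2) (by positivity) (by
    push_cast; rw [abs_of_pos (by linarith)]; linarith)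
  rw [bj] at h3 h4
  have h5 := c_close k
  -- lower bound
  have h6 : (1 / 2 : ℂ) = II J 0 (nn k) - (II J 0 (nn k) - II (k + 1) 0 (nn k)) - II k 0 (nn k) - II k 0 (nn k + nn k) / 2 - (II k 0 0 - 1) / 2 := by
    rw [h2]; ring
  have h7 : ‖(1 / 2 : ℂ)‖ ≤ ‖II J 0 (nn k)‖ + ‖II J 0 (nn k) - II (k + 1) 0 (nn k)‖ + ‖II k 0 (nn k)‖ + ‖II k 0 (nn k + nn k) / 2‖ + ‖(II k 0 0 - 1) / 2‖ := by
    conv_lhs => rw [h6]
    refine (norm_sub_le _ _).trans (add_le_add ?_ le_rfl)
    refine (norm_sub_le _ _).trans (add_le_add ?_ le_rfl)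
    refine (norm_sub_le _ _).trans (add_le_add ?_ le_rfl)
    exact norm_sub_le _ _
  have h8 : ‖(1 / 2 : ℂ)‖ = 1 / 2 := by norm_num
  have h9 : ∀ z : ℂ, ‖z / 2‖ = ‖z‖ / 2 := fun z => by rw [norm_div]; norm_num
  rw [h8, h9, h9] at h7
  have h10 : (0 : ℝ) < (1 / 4) ^ J := by positivity
  have h11 : (1 / 4 : ℝ) ^ (k + 1) = (1 / 4) ^ k * (1 / 4) := pow_succ _ _
  rw [h11] at h1
  nlinarith

end Pool.Agent.H8.Coge
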