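import Pool.Agent.H8.Coge.Op

set_option autoImplicit false

open Set Complex MeasureTheory Filter Topology
open scoped NNReal ENNReal

namespace Pool.Agent.H8.Coge

theorem closed_tendsto {E : Type} [NormedAddCommGroup E] (F : ℝ → E → ℂ) (C : ℝ) (hC0 : 0 ≤ C)
    (hC : ∀ t x y, ‖F t x - F t y‖ ≤ C * ‖x - y‖) : IsClosed {x : E | Tendsto (fun t => F t x) atTop (𝓝 0)} := by
  rw [← isSeqClosed_iff_isClosed]
  intro u x hu hx
  simp only [mem_setOf_eq] at hu ⊢
  rw [Metric.tendsto_nhds]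
  intro ε hε
  have hx1 : Tendsto (fun n => C * ‖x - u n‖) atTop (𝓝 (C * ‖x - x‖)) := (tendsto_const_nhds.sub hx).norm.const_mul C
  rw [sub_self, norm_zero, mul_zero] at hx1
  obtain ⟨n, hn⟩ := (hx1.eventually (gt_mem_nhds (half_pos hε))).exists
  have h1 := (Metric.tendsto_nhds.1 (hu n)) (ε / 2) (half_pos hε)
  filter_upwards [h1] with t ht
  rw [dist_zero_right] at ht ⊢
  calc ‖F t x‖ = ‖(F t x - F t (u n)) + F t (u n)‖ := by rw [sub_add_cancel]
    _ ≤ ‖F t x - F t (u n)‖ + ‖F t (u n)‖ := norm_add_le _ _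
    _ < ε / 2 + ε / 2 := add_lt_add_of_le_of_lt ((hC t x (u n)).trans hn.le) ht
    _ = ε := by ring

variable (μ : Measure X) [IsProbabilityMeasure μ]

noncomputable def LL (t : ℝ) (h : C(X, ℂ)) : ℂ := ∫ x, (EE t * h) x ∂μ

theorem int_cont (h : C(X, ℂ)) : Integrable (fun x => h x) μ := h.continuous.integrable_of_hasCompactSupport (HasCompactSupport.of_compactSpace _)

theorem LL_add (t : ℝ) (g h : C(X, ℂ)) : LL μ t (g + h) = LL μ t g + LL μ t h := by
  unfold LL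
  rw [← integral_add (int_cont μ _) (int_cont μ _), mul_add]
  rfl

theorem LL_smul (t : ℝ) (c : ℂ) (h : C(X, ℂ)) : LL μ t (c • h) = c * LL μ t h := by
  unfold LL
  rw [← integral_const_mul, mul_smul_comm]
  rfl

theorem LL_norm (t : ℝ) (h : C(X, ℂ)) : ‖LL μ t h‖ ≤ ‖h‖ := by
  unfold LL
  have : ∀ x, ‖(EE t * h) x‖ ≤ ‖h‖ := by
    intro x
    refine ((EE t * h).norm_coe_le_norm x).trans ((norm_mul_le _ _).trans ?_)
    calc ‖EE t‖ * ‖h‖ ≤ 1 * ‖h‖ := mul_le_mul_of_nonneg_right (EE_norm t) (norm_nonneg _)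
      _ = _ := one_mul _
  have h2 := norm_integral_le_of_norm_le_const (μ := μ) (Eventually.of_forall this)
  simpa using h2

theorem LL_lip (t : ℝ) (g h : C(X, ℂ)) : ‖LL μ t g - LL μ t h‖ ≤ 1 * ‖g - h‖ := by
  have : LL μ t g - LL μ t h = LL μ t (g - h) := by
    rw [sub_eq_add_neg g h, LL_add, ← neg_one_smul ℂ h, LL_smul]; ring
  rw [this, one_mul]
  exact LL_norm μ t _

noncomputable def Sp : Submodule ℂ C(X, ℂ) := Submodule.span ℂ (range EE)

theorem Sp_mul {g h : C(X, ℂ)} (hg : g ∈ Sp) (hh : h ∈ Sp) : g * h ∈ Sp := by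
  have h1 := Submodule.mul_mem_mul hg hh
  unfold Sp at h1
  rw [Submodule.span_mul_span] at h1
  refine Submodule.span_mono ?_ h1
  rintro _ ⟨_, ⟨s, rfl⟩, _, ⟨t, rfl⟩, rfl⟩
  exact ⟨s + t, EE_add s t⟩

theorem EE_star (t : ℝ) : star (EE t) = EE (-t) := by
  ext x
  change (starRingEnd ℂ) (ef t 0 x) = ef (-t) 0 x
  rw [ef_conj]
  simp

theorem Sp_star {g : C(X, ℂ)} (hg : g ∈ Sp) : star g ∈ Sp := by
  unfold Sp at hg
  induction hg using Submodule.span_induction with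
  | mem x hx =>
    obtain ⟨t, rfl⟩ := hx
    rw [EE_star]
    exact Submodule.subset_span ⟨-t, rfl⟩
  | zero => rw [star_zero]; exact Sp.zero_mem
  | add x y _ _ hx hy => rw [star_add]; exact Sp.add_mem hx hy
  | smul c x _ hx => rw [star_smul]; exact Sp.smul_mem _ hx

theorem adj_le {g : C(X, ℂ)} (hg : g ∈ StarAlgebra.adjoin ℂ (range EE)) : g ∈ Sp := by
  induction hg using StarAlgebra.adjoin_induction with
  | mem x hx => exact Submodule.subset_span hx
  | algebraMap r =>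
    rw [Algebra.algebraMap_eq_smul_one, ← EE_zero]
    exact Sp.smul_mem _ (Submodule.subset_span ⟨0, rfl⟩)
  | add x y _ _ hx hy => exact Sp.add_mem hx hy
  | mul x y _ _ hx hy => exact Sp_mul hx hy
  | star x _ hx => exact Sp_star hx

theorem dense_Sp (g : C(X, ℂ)) : g ∈ closure (Sp : Set C(X, ℂ)) := by
  have hs : (StarAlgebra.adjoin ℂ (range EE)).SeparatesPoints := by
    intro x y hxy
    refine ⟨EE 1, ⟨EE 1, StarAlgebra.subset_adjoin ℂ _ ⟨1, rfl⟩, rfl⟩, ?_⟩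
    intro h
    apply hxy
    change ef 1 0 x = ef 1 0 y at h
    have h2 := congrArg Complex.re h
    simp only [ef, zpow_zero, mul_one, ofReal_one, one_mul] at h2
    rw [Complex.exp_ofReal_mul_I_re, Complex.exp_ofReal_mul_I_re] at h2
    have hpi := Real.pi_gt_three
    exact Subtype.ext (Real.injOn_cos ⟨by linarith [x.2.1], by linarith [x.2.2]⟩ ⟨by linarith [y.2.1], by linarith [y.2.2]⟩ h2)
  have h := ContinuousMap.starSubalgebra_topologicalClosure_eq_top_of_separatesPoints _ hs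
  have hg : g ∈ (StarAlgebra.adjoin ℂ (range EE)).topologicalClosure := by rw [h]; trivial
  have hg2 : g ∈ closure ((StarAlgebra.adjoin ℂ (range EE) : StarSubalgebra ℂ C(X, ℂ)) : Set C(X, ℂ)) := hg
  exact closure_mono (fun x hx => adj_le hx) hg2

theorem LL_tendsto (hμ : Tendsto (fun t : ℝ => ∫ x : X, ef t 0 x ∂μ) atTop (𝓝 0)) (g : C(X, ℂ)) :
    Tendsto (fun t => LL μ t g) atTop (𝓝 0) := by
  have hc := closed_tendsto (fun t => LL μ t) 1 zero_le_one (LL_lip μ)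
  have hsub : (Sp : Set C(X, ℂ)) ⊆ {x | Tendsto (fun t => LL μ t x) atTop (𝓝 0)} := by
    intro h hh
    have hh' : h ∈ Submodule.span ℂ (range EE) := hh
    simp only [mem_setOf_eq]
    induction hh' using Submodule.span_induction with
    | mem x hx =>
      obtain ⟨s, rfl⟩ := hx
      have h1 := hμ.comp (tendsto_atTop_add_const_right atTop s tendsto_id)
      refine h1.congr fun t => ?_
      unfold LL
      simp only [Function.comp, id]
      refine integral_congr_ae (Eventually.of_forall fun x => ?_)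
      change EE (t + s) x = _
      rw [EE_add]
    | zero =>
      have : ∀ t, LL μ t 0 = 0 := fun t => by unfold LL; simp
      simp only [this]
      exact tendsto_const_nhds
    | add x y hx' hy' hx hy =>
      simp only [LL_add]
      have := (hx hx').add (hy hy')
      rwa [add_zero] at this
    | smul c x hx' hx =>
      simp only [LL_smul]
      have := (hx hx').const_mul c
      rwa [mul_zero] at this
  exact hc.closure_subset_iff.2 hsub (dense_Sp g)

noncomputable def JJ (g : C(X, ℂ)) : Lp ℂ 2 μ := ContinuousMap.toLp 2 μ ℂ g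

theorem mm_JJ (u g : C(X, ℂ)) : mm μ u (JJ μ g) = JJ μ (u * g) := by
  refine Lp.ext ?_
  filter_upwards [mm_coe μ u (JJ μ g), ContinuousMap.coeFn_toLp (p := 2) (𝕜 := ℂ) μ g, ContinuousMap.coeFn_toLp (p := 2) (𝕜 := ℂ) μ (u * g)] with x h1 h2 h3
  rw [h1]
  unfold JJ
  rw [h2, h3, ContinuousMap.mul_apply]

theorem inner_JJ (f g : C(X, ℂ)) : inner ℂ (JJ μ f) (JJ μ g) = ∫ x, g x * (starRingEnd ℂ) (f x) ∂μ :=
  ContinuousMap.inner_toLp μ f g

theorem JJ_dense : DenseRange (JJ μ) := ContinuousMap.toLp_denseRange ℂ μ ℂ (by norm_num)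

theorem TT_weak_JJ (hμ : Tendsto (fun t : ℝ => ∫ x : X, ef t 0 x ∂μ) atTop (𝓝 0)) (f g : C(X, ℂ)) :
    Tendsto (fun t : ℝ => inner ℂ (TT μ t (JJ μ f)) (JJ μ g)) atTop (𝓝 0) := by
  have h1 := LL_tendsto μ hμ (f * star g)
  have h2 := (Complex.continuous_conj.tendsto 0).comp h1
  rw [map_zero] at h2
  refine h2.congr fun t => ?_
  change (starRingEnd ℂ) (LL μ t (f * star g)) = inner ℂ (mm μ (EE t) (JJ μ f)) (JJ μ g)
  rw [mm_JJ, inner_JJ]
  unfold LL
  rw [← integral_conj]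
  refine integral_congr_ae (Eventually.of_forall fun x => ?_)
  simp only [ContinuousMap.mul_apply, ContinuousMap.star_apply, map_mul]
  rw [RCLike.star_def, Complex.conj_conj]
  ring

theorem TT_weak (hμ : Tendsto (fun t : ℝ => ∫ x : X, ef t 0 x ∂μ) atTop (𝓝 0)) (f g : Lp ℂ 2 μ) :
    Tendsto (fun t : ℝ => inner ℂ (TT μ t f) g) atTop (𝓝 0) := by
  have hT : ∀ t (f : Lp ℂ 2 μ), ‖TT μ t f‖ ≤ ‖f‖ := by
    intro t f
    refine ((TT μ t).le_opNorm f).trans ?_
    calc ‖TT μ t‖ * ‖f‖ ≤ 1 * ‖f‖ := mul_le_mul_of_nonneg_right (TT_norm μ t) (norm_nonneg _)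
      _ = _ := one_mul _
  have c1 : ∀ f : Lp ℂ 2 μ, IsClosed {g : Lp ℂ 2 μ | Tendsto (fun t : ℝ => inner ℂ (TT μ t f) g) atTop (𝓝 0)} := by
    intro f
    refine closed_tendsto (fun t g => inner ℂ (TT μ t f) g) ‖f‖ (norm_nonneg _) fun t x y => ?_
    rw [← inner_sub_right]
    exact (norm_inner_le_norm _ _).trans (mul_le_mul_of_nonneg_right (hT t f) (norm_nonneg _))
  have c2 : ∀ g : Lp ℂ 2 μ, IsClosed {f : Lp ℂ 2 μ | Tendsto (fun t : ℝ => inner ℂ (TT μ t f) g) atTop (𝓝 0)} := by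
    intro g
    refine closed_tendsto (fun t f => inner ℂ (TT μ t f) g) ‖g‖ (norm_nonneg _) fun t x y => ?_
    rw [← inner_sub_left, ← map_sub, mul_comm]
    exact (norm_inner_le_norm _ _).trans (mul_le_mul_of_nonneg_right (hT t _) (norm_nonneg _))
  have s1 : ∀ g : C(X, ℂ), ∀ f : Lp ℂ 2 μ, Tendsto (fun t : ℝ => inner ℂ (TT μ t f) (JJ μ g)) atTop (𝓝 0) := by
    intro g f
    have : range (JJ μ) ⊆ {f : Lp ℂ 2 μ | Tendsto (fun t : ℝ => inner ℂ (TT μ t f) (JJ μ g)) atTop (𝓝 0)} := by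
      rintro _ ⟨f, rfl⟩
      exact TT_weak_JJ μ hμ f g
    exact (c2 (JJ μ g)).closure_subset_iff.2 this (JJ_dense μ f)
  have : range (JJ μ) ⊆ {g : Lp ℂ 2 μ | Tendsto (fun t : ℝ => inner ℂ (TT μ t f) g) atTop (𝓝 0)} := by
    rintro _ ⟨g, rfl⟩
    exact s1 g f
  exact (c1 f).closure_subset_iff.2 this (JJ_dense μ g)

theorem not_weak (hμ : ∀ k : ℕ, 0.4 ≤ ‖∫ x : X, ef 0 (nn k) x ∂μ‖) (k : ℕ) :
    0.4 ≤ ‖(inner ℂ (mm μ (WW ^ (2000000 * 64 ^ k)) (JJ μ 1)) (JJ μ 1) : ℂ)‖ := by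
  rw [mm_JJ, inner_JJ]
  have h := hμ k
  rw [← RCLike.norm_conj, ← integral_conj] at h
  refine h.trans (le_of_eq ?_)
  congr 1
  refine integral_congr_ae (Eventually.of_forall fun x => ?_)
  simp only [ContinuousMap.one_apply, one_mul, mul_one, ContinuousMap.pow_apply]
  congr 1
  unfold ef nn
  change Complex.exp (((0 : ℝ) : ℂ) * _ * I) * w x ^ _ = (-w x) ^ (2000000 * 64 ^ k)
  have he : Even (2000000 * 64 ^ k) := Even.mul_right (by decide) _
  rw [he.neg_pow, ofReal_zero, zero_mul, zero_mul, Complex.exp_zero, one_mul, ← zpow_natCast]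
  push_cast
  rfl

end Pool.Agent.H8.Coge
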